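import Pool.Agent.U979.AV.Lin

set_option autoImplicit false

/-!
# The classification of extremal subspaces, if there is one of rank one (helper979)
-/

namespace Pool.Agent.U979.AV

open Module Matrix Pool.Agent.E8helper40.PC

/-- the data -/
structure Dat (k : Type*) {K D V : Type*} [Field k] [IsAlgClosed k] [CharZero k] [Field K]
    [CharZero K] [Algebra k K] [DivisionRing D] [CharZero D] [AddCommGroup V] [Module D V]
    {n : ℕ} (M : D →+* Matrix (Fin n) (Fin n) ℚ) (Λ : V →+ (Fin n → K)) : Prop where
  pos : 0 < n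
  comm : ∀ x y : D, x * y = y * x
  smul : ∀ (δ : D) (v : V), Λ (δ • v) = ovf K (M δ) *ᵥ Λ v
  ind : ∀ (s : ℕ) (v : Fin s → V), LinearIndependent D v →
    LinearIndependent k fun ij : Fin n × Fin s => Λ (v ij.2) ij.1

variable {k K D V : Type*} [Field k] [IsAlgClosed k] [CharZero k] [Field K] [CharZero K]
  [Algebra k K] [DivisionRing D] [CharZero D] [AddCommGroup V] [Module D V] [Module ℚ V]
  {n : ℕ} {M : D →+* Matrix (Fin n) (Fin n) ℚ} {Λ : V →+ (Fin n → K)}

theorem Dat.pair_ne (h : Dat k M Λ) {s : ℕ} {y : Fin s → V} (hy : LinearIndependent D y)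
    (j : Fin s) {μ : Fin n → k} (hμ : μ ≠ 0) : pair μ (Λ (y j)) ≠ 0 := by
  intro h0
  apply hμ
  have h1 := (h.ind s y hy).comp (fun b : Fin n => (b, j)) (fun a b hab => congrArg Prod.fst hab)
  rw [Fintype.linearIndependent_iff] at h1
  funext b
  refine h1 μ ?_ b
  rw [← h0]
  unfold pair
  exact Finset.sum_congr rfl fun b _ => by rw [Algebra.smul_def]; rfl

theorem Dat.coeff (h : Dat k M Λ) {s : ℕ} {y : Fin s → V} (hy : LinearIndependent D y)
    {w : Fin n → K} {c : Fin s → K} (hc : ∀ j, Λ (y j) = c j • w) : LinearIndependent k c := by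
  have h1 := (h.ind s y hy).comp (fun j : Fin s => ((⟨0, h.pos⟩ : Fin n), j))
    (fun a b hab => congrArg Prod.snd hab)
  rw [Fintype.linearIndependent_iff] at h1 ⊢
  intro z hz j
  refine h1 z ?_ j
  have h2 : ∀ j, Λ (y j) ⟨0, h.pos⟩ = c j * w ⟨0, h.pos⟩ := fun j => by
    rw [hc j, Pi.smul_apply, smul_eq_mul]
  calc ∑ i, z i • (Λ (y i) ⟨0, h.pos⟩) = (∑ i, z i • c i) * w ⟨0, h.pos⟩ := by
        rw [Finset.sum_mul]
        exact Finset.sum_congr rfl fun i _ => by rw [h2 i, smul_mul_assoc]
    _ = 0 := by rw [hz, zero_mul]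

theorem classify (h : Dat k M Λ) {s m r : ℕ} (hs : 0 < s) {y : Fin s → V}
    (hy : LinearIndependent D y) {w : Fin n → K} {c : Fin s → K} (hcw : ∀ j, Λ (y j) = c j • w)
    (d : Fin m → Fin s → D) (hu : LinearIndependent ℚ fun i => ∑ j, d i j • y j)
    (hr : finrank K (Submodule.span K (Set.range fun i => Λ (∑ j, d i j • y j))) ≤ r)
    (hm : m = r * s) :
    finrank ℚ (Submodule.span ℚ (Set.range fun q : Fin m × Fin s => d q.1 q.2)) ≤ r := by
  classical
  set u : Fin m → V := fun i => ∑ j, d i j • y j with hudef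
  have hcind := h.coeff hy hcw
  -- the eigenvectors
  let E := {q : (Fin n → k) × (D → k) // Ev M q.1 q.2}
  let Φ : E → Fin m → K := fun q i => pair q.1.1 (Λ (u i))
  have hw : ∀ q : E, pair q.1.1 w ≠ 0 := by
    intro q h0
    have h1 := h.pair_ne hy ⟨0, hs⟩ q.2.1
    rw [hcw, pair_scalar, h0, mul_zero] at h1
    exact h1 rfl
  have hΦ : ∀ (q : E) (i : Fin m),
      Φ q i = (∑ j, algebraMap k K (q.1.2 (d i j)) * c j) * pair q.1.1 w := by
    intro q i
    change pair q.1.1 (Λ (∑ j, d i j • y j)) = _
    rw [map_sum, pair_sum, Finset.sum_mul]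
    refine Finset.sum_congr rfl fun j _ => ?_
    rw [h.smul, pair_smul q.2, hcw, pair_scalar, mul_assoc]
  obtain ⟨κ, e, he, hspan, hli⟩ := exists_linearIndependent' K Φ
  have hκfin : Finite κ := hli.finite
  have : Fintype κ := Fintype.ofFinite κ
  -- the number of elements of `κ`
  have hκ : Fintype.card κ ≤ r := by
    let L : Matrix (Fin m) (Fin n) K := Matrix.of fun i b => Λ (u i) b
    have h1 : L.rank ≤ r := by
      rw [Matrix.rank_eq_finrank_span_row]
      exact hr
    have h2 : Submodule.span K (Set.range Φ) ≤ LinearMap.range L.mulVecLin := by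
      rw [Submodule.span_le]
      rintro _ ⟨q, rfl⟩
      refine ⟨fun b => algebraMap k K (q.1.1 b), ?_⟩
      funext i
      rw [Matrix.mulVecLin_apply]
      change ∑ b, Λ (u i) b * algebraMap k K (q.1.1 b) = ∑ b, algebraMap k K (q.1.1 b) * Λ (u i) b
      exact Finset.sum_congr rfl fun b _ => mul_comm _ _
    have h3 : Fintype.card κ = finrank K (Submodule.span K (Set.range Φ)) := by
      rw [← hspan, finrank_span_eq_card hli]
    rw [h3]
    exact (Submodule.finrank_mono h2).trans h1
  -- independence of the `d i`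
  have hd : LinearIndependent ℚ d := by
    rw [Fintype.linearIndependent_iff] at hu ⊢
    intro q hq
    refine hu q ?_
    have h1 : ∀ j, ∑ i, q i • d i j = 0 := fun j => by
      have := congrFun hq j
      rw [Finset.sum_apply] at this
      exact this
    calc ∑ i, q i • u i = ∑ i, ∑ j, (q i • d i j) • y j := by
          refine Finset.sum_congr rfl fun i _ => ?_
          rw [hudef, Finset.smul_sum]
          exact Finset.sum_congr rfl fun j _ => (smul_assoc _ _ _).symm
      _ = ∑ j, (∑ i, q i • d i j) • y j := by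
          rw [Finset.sum_comm]
          exact Finset.sum_congr rfl fun j _ => by rw [Finset.sum_smul]
      _ = 0 := by simp only [h1, zero_smul, Finset.sum_const_zero]
  -- the rows are independent
  have hrow : ∀ v : Fin m → k, (∀ (a : κ) (j : Fin s), ∑ i, v i * (e a).1.2 (d i j) = 0) →
      v = 0 := by
    intro v hv
    let φ : (Fin m → K) →ₗ[K] K :=
      { toFun := fun f => ∑ i, algebraMap k K (v i) * f i
        map_add' := by
          intro f g
          rw [← Finset.sum_add_distrib]
          exact Finset.sum_congr rfl fun i _ => by rw [Pi.add_apply, mul_add]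
        map_smul' := by
          intro a f
          rw [RingHom.id_apply, Finset.smul_sum]
          exact Finset.sum_congr rfl fun i _ => by
            rw [Pi.smul_apply, smul_eq_mul, smul_eq_mul]; ring }
    have hφ : ∀ q : E, φ (Φ q) =
        (∑ j, algebraMap k K (∑ i, v i * q.1.2 (d i j)) * c j) * pair q.1.1 w := by
      intro q
      change ∑ i, algebraMap k K (v i) * Φ q i = _
      simp only [hΦ, map_sum, map_mul, Finset.sum_mul, Finset.mul_sum]
      rw [Finset.sum_comm]
      exact Finset.sum_congr rfl fun j _ => Finset.sum_congr rfl fun i _ => by ring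
    have h1 : Submodule.span K (Set.range Φ) ≤ LinearMap.ker φ := by
      rw [← hspan, Submodule.span_le]
      rintro _ ⟨a, rfl⟩
      change φ (Φ (e a)) = 0
      rw [hφ]
      simp only [hv, map_zero, zero_mul, Finset.sum_const_zero]
    refine comb_zero (k := k) h.pos M h.comm d hd v fun μ σ hσ => ?_
    have h2 : φ (Φ ⟨(μ, σ), hσ⟩) = 0 := h1 (Submodule.subset_span ⟨_, rfl⟩)
    rw [hφ] at h2
    have h3 := (mul_eq_zero.1 h2).resolve_right (hw _)
    rw [Fintype.linearIndependent_iff] at hcind
    exact hcind (fun j => ∑ i, v i * σ (d i j)) (by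
      rw [← h3]
      exact Finset.sum_congr rfl fun j _ => by rw [Algebra.smul_def])
  -- the dimension
  have hms : m ≤ Fintype.card κ * s := by
    let T : (Fin m → k) →ₗ[k] (κ × Fin s → k) :=
      { toFun := fun v q => ∑ i, v i * (e q.1).1.2 (d i q.2)
        map_add' := by
          intro f g
          funext q
          rw [Pi.add_apply, ← Finset.sum_add_distrib]
          exact Finset.sum_congr rfl fun i _ => by rw [Pi.add_apply, add_mul]
        map_smul' := by
          intro a f
          funext q
          rw [RingHom.id_apply, Pi.smul_apply, Finset.smul_sum]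
          exact Finset.sum_congr rfl fun i _ => by
            rw [Pi.smul_apply, smul_eq_mul, smul_eq_mul, mul_assoc] }
    have hT : Function.Injective T := by
      rw [← LinearMap.ker_eq_bot, LinearMap.ker_eq_bot']
      intro v hv
      exact hrow v fun a j => congrFun hv (a, j)
    have := LinearMap.finrank_le_finrank_of_injective hT
    rw [Module.finrank_fintype_fun_eq_card, Module.finrank_fintype_fun_eq_card, Fintype.card_fin,
      Fintype.card_prod, Fintype.card_fin] at this
    exact this
  have hκr : Fintype.card κ = r := by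
    refine le_antisymm hκ ?_
    rw [hm] at hms
    exact Nat.le_of_mul_le_mul_right hms hs
  let ε : Fin m ≃ κ × Fin s := Fintype.equivOfCardEq (by
    rw [Fintype.card_fin, Fintype.card_prod, Fintype.card_fin, hκr, hm])
  let P : Matrix (Fin m) (Fin m) k := fun i t => (e (ε t).1).1.2 (d i (ε t).2)
  have hP : P.det ≠ 0 := by
    intro h0
    obtain ⟨v, hv0, hv⟩ := Matrix.exists_vecMul_eq_zero_iff.2 h0
    refine hv0 (hrow v fun a j => ?_)
    have h1 := congrFun hv (ε.symm (a, j))
    simp only [Matrix.vecMul, dotProduct, P, Equiv.apply_symm_apply, Pi.zero_apply] at h1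
    exact h1
  have hPK : ∀ f : Fin m → K, (∀ i, ∑ t, algebraMap k K (P i t) * f t = 0) → f = 0 := by
    intro f hf
    by_contra h0
    have h1 : (P.map (algebraMap k K)).det = 0 :=
      Matrix.exists_mulVec_eq_zero_iff.1 ⟨f, h0, funext fun i => hf i⟩
    have h2 : (P.map (algebraMap k K)).det = algebraMap k K P.det :=
      ((algebraMap k K).map_det P).symm
    rw [h2, map_eq_zero] at h1
    exact hP h1
  -- the relations between the eigenvalues
  have hrel : ∀ q : E, ∃ g : κ → k, ∀ i j, q.1.2 (d i j) = ∑ a, g a * (e a).1.2 (d i j) := by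
    intro q
    have h1 : Φ q ∈ Submodule.span K (Set.range (Φ ∘ e)) := by
      rw [hspan]
      exact Submodule.subset_span ⟨q, rfl⟩
    obtain ⟨γ', hγ'⟩ := (Submodule.mem_span_range_iff_exists_fun K).1 h1
    set γ : κ → K := fun a => γ' a * pair (e a).1.1 w / pair q.1.1 w with hγ
    let S : Matrix (Fin m) (Fin s) k := fun i j => q.1.2 (d i j)
    have hA : P * (P⁻¹ * S) = S := by
      rw [← Matrix.mul_assoc, Matrix.mul_nonsing_inv P (isUnit_iff_ne_zero.2 hP), Matrix.one_mul]
    set A : Matrix (Fin m) (Fin s) k := P⁻¹ * S with hAdef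
    have hA' : ∀ i j, q.1.2 (d i j) = ∑ t, P i t * A t j := fun i j => by
      have := congrFun (congrFun hA i) j
      rw [Matrix.mul_apply] at this
      exact this.symm
    have h2 : (fun t => ∑ j, algebraMap k K (A t j) * c j - γ (ε t).1 * c (ε t).2) = 0 := by
      refine hPK _ fun i => ?_
      simp only [mul_sub, Finset.sum_sub_distrib]
      rw [sub_eq_zero]
      have e1 : ∑ t, algebraMap k K (P i t) * ∑ j, algebraMap k K (A t j) * c j =
          ∑ j, algebraMap k K (q.1.2 (d i j)) * c j := by
        simp only [Finset.mul_sum]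
        rw [Finset.sum_comm]
        refine Finset.sum_congr rfl fun j _ => ?_
        rw [hA' i j, map_sum, Finset.sum_mul]
        exact Finset.sum_congr rfl fun t _ => by rw [map_mul, mul_assoc]
      have e2 : ∑ j, algebraMap k K (q.1.2 (d i j)) * c j = Φ q i / pair q.1.1 w := by
        rw [hΦ, mul_div_assoc, div_self (hw q), mul_one]
      have e3 : Φ q i = ∑ a, γ' a * Φ (e a) i := by
        have := congrFun hγ' i
        rw [Finset.sum_apply] at this
        rw [← this]
        rfl
      rw [e1, e2, e3, Finset.sum_div]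
      have e4 : ∀ a, γ' a * Φ (e a) i / pair q.1.1 w =
          ∑ l, algebraMap k K ((e a).1.2 (d i l)) * (γ a * c l) := by
        intro a
        rw [hΦ, hγ]
        simp only [Finset.sum_mul, Finset.mul_sum, Finset.sum_div]
        exact Finset.sum_congr rfl fun l _ => by ring
      rw [Finset.sum_congr rfl fun a _ => e4 a]
      have e5 : ∑ a, ∑ l, algebraMap k K ((e a).1.2 (d i l)) * (γ a * c l) =
          ∑ b : κ × Fin s, algebraMap k K ((e b.1).1.2 (d i b.2)) * (γ b.1 * c b.2) := by
        rw [Fintype.sum_prod_type]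
      rw [e5]
      exact (Equiv.sum_comp ε fun b : κ × Fin s =>
        algebraMap k K ((e b.1).1.2 (d i b.2)) * (γ b.1 * c b.2)).symm
    have h3 : ∀ a : κ, ∃ g : k, γ a = algebraMap k K g ∧
        ∀ l j, A (ε.symm (a, l)) j = if l = j then g else 0 := by
      intro a
      refine eig_scalar hs (fun l j => A (ε.symm (a, l)) j) (γ a) c hcind fun l => ?_
      have := congrFun h2 (ε.symm (a, l))
      simp only [Equiv.apply_symm_apply, Pi.zero_apply] at this
      exact sub_eq_zero.1 this
    choose g hg1 hg2 using h3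
    refine ⟨g, fun i j => ?_⟩
    rw [hA' i j]
    have e6 : ∑ t, P i t * A t j = ∑ b : κ × Fin s, (e b.1).1.2 (d i b.2) * A (ε.symm b) j := by
      rw [← Equiv.sum_comp ε fun b : κ × Fin s => (e b.1).1.2 (d i b.2) * A (ε.symm b) j]
      refine Finset.sum_congr rfl fun t _ => ?_
      rw [Equiv.symm_apply_apply]
    rw [e6, Fintype.sum_prod_type]
    refine Finset.sum_congr rfl fun a _ => ?_
    rw [Finset.sum_eq_single j]
    · rw [hg2 a j j, if_pos rfl, mul_comm]
    · intro b _ hb
      rw [hg2 a b j, if_neg hb, mul_zero]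
    · intro h
      exact absurd (Finset.mem_univ j) h
  -- the dimension of the span
  set X := Submodule.span ℚ (Set.range fun q : Fin m × Fin s => d q.1 q.2) with hX
  have hXfin : FiniteDimensional ℚ X := FiniteDimensional.span_of_finite ℚ (Set.finite_range _)
  have hrelX : ∀ (q : E) (g : κ → k), (∀ i j, q.1.2 (d i j) = ∑ a, g a * (e a).1.2 (d i j)) →
      ∀ x ∈ X, q.1.2 x = ∑ a, g a * (e a).1.2 x := by
    intro q g hg x hx
    refine Submodule.span_induction ?_ ?_ ?_ ?_ hx
    · rintro _ ⟨⟨i, j⟩, rfl⟩
      exact hg i j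
    · rw [q.2.zero]
      symm
      exact Finset.sum_eq_zero fun a _ => by rw [(e a).2.zero, mul_zero]
    · intro a b _ _ ha hb
      rw [q.2.add, ha, hb, ← Finset.sum_add_distrib]
      exact Finset.sum_congr rfl fun t _ => by rw [(e t).2.add, mul_add]
    · intro a b _ hb
      rw [q.2.rat, hb, Finset.mul_sum]
      exact Finset.sum_congr rfl fun t _ => by rw [(e t).2.rat]; ring
  let b := Module.finBasis ℚ X
  let T : (Fin (finrank ℚ X) → k) →ₗ[k] (κ → k) :=
    { toFun := fun v a => ∑ i, v i * (e a).1.2 (b i : D)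
      map_add' := by
        intro f g
        funext q
        rw [Pi.add_apply, ← Finset.sum_add_distrib]
        exact Finset.sum_congr rfl fun i _ => by rw [Pi.add_apply, add_mul]
      map_smul' := by
        intro a f
        funext q
        rw [RingHom.id_apply, Pi.smul_apply, Finset.smul_sum]
        exact Finset.sum_congr rfl fun i _ => by
          rw [Pi.smul_apply, smul_eq_mul, smul_eq_mul, mul_assoc] }
  have hT : Function.Injective T := by
    rw [← LinearMap.ker_eq_bot, LinearMap.ker_eq_bot']
    intro v hv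
    have hbli : LinearIndependent ℚ fun i => (b i : D) :=
      b.linearIndependent.map' X.subtype (Submodule.ker_subtype X)
    refine comb_zero (k := k) h.pos M h.comm (κ := Unit) (fun i _ => (b i : D)) ?_ v
      fun μ σ hσ _ => ?_
    · rw [Fintype.linearIndependent_iff] at hbli ⊢
      intro g hg
      refine hbli g ?_
      have := congrFun hg ()
      rw [Finset.sum_apply] at this
      exact this
    · obtain ⟨g, hg⟩ := hrel ⟨(μ, σ), hσ⟩
      have h4 := hrelX ⟨(μ, σ), hσ⟩ g hg
      have h5 : ∀ i, σ (b i : D) = ∑ a, g a * (e a).1.2 (b i : D) := fun i => h4 _ (b i).2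
      have h6 : ∀ a, ∑ i, v i * (e a).1.2 (b i : D) = 0 := fun a => congrFun hv a
      calc ∑ i, v i * σ (b i : D) = ∑ a, g a * ∑ i, v i * (e a).1.2 (b i : D) := by
            simp only [h5, Finset.mul_sum]
            rw [Finset.sum_comm]
            exact Finset.sum_congr rfl fun a _ => Finset.sum_congr rfl fun i _ => by ring
        _ = 0 := by simp only [h6, mul_zero, Finset.sum_const_zero]
  have h7 := LinearMap.finrank_le_finrank_of_injective hT
  rw [Module.finrank_fintype_fun_eq_card, Module.finrank_fintype_fun_eq_card, Fintype.card_fin,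
    hκr] at h7
  exact h7

end Pool.Agent.U979.AV
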