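import Pool.Agent.U979.AV.Lat
import Pool.Agent.E8helper14.PA.Gl

set_option autoImplicit false

/-!
# Extremal failures: the theorem for simple abelian varieties (helper979)
-/

namespace Pool.Agent.U979.AV

open TensorProduct Module Matrix Pool.Agent.E8helper40.PC

section abs

variable {k K D V : Type*} [Field k] [IsAlgClosed k] [CharZero k] [Field K] [CharZero K]
  [Algebra k K] [DivisionRing D] [CharZero D] [AddCommGroup V] [Module D V] [Module ℚ V]
  {n : ℕ} {M : D →+* Matrix (Fin n) (Fin n) ℚ} {Λ : V →+ (Fin n → K)}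

theorem basis_of (h : Dat k M Λ) (V₀ : Submodule D V) [FiniteDimensional D V₀]
    {U₁ : Submodule ℚ V} (hU₁ : Ext Λ V₀ U₁) (hrk : rk Λ U₁ = 1) :
    ∃ (y : Fin (finrank D V₀) → V) (w : Fin n → K) (c : Fin (finrank D V₀) → K),
      LinearIndependent D y ∧ (∀ j, Λ (y j) = c j • w) ∧ Submodule.span D (Set.range y) = V₀ ∧
      U₁ = Submodule.span ℚ (Set.range y) := by
  classical
  have := hU₁.fin
  have hs : finrank ℚ U₁ = finrank D V₀ := by rw [hU₁.eq, hrk, one_mul]
  let b := (Module.finBasis ℚ U₁).reindex (finCongr hs)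
  let y : Fin (finrank D V₀) → V := fun j => (b j : V)
  have hyspan : U₁ = Submodule.span ℚ (Set.range y) := by
    have h1 := congrArg (Submodule.map U₁.subtype) b.span_eq
    rw [Submodule.map_span, Submodule.map_subtype_top, ← Set.range_comp] at h1
    exact h1.symm
  have hyV : Submodule.span D (Set.range y) ≤ V₀ := by
    rw [Submodule.span_le]
    rintro _ ⟨j, rfl⟩
    exact hU₁.le _ (b j).2
  have hle : finrank D V₀ ≤ finrank D (Submodule.span D (Set.range y)) := by
    have : FiniteDimensional D (Submodule.span D (Set.range y)) :=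
      FiniteDimensional.span_of_finite D (Set.finite_range y)
    have h1 := h.ineq (Submodule.span D (Set.range y)) U₁ fun u hu => by
      rw [hyspan] at hu
      exact Submodule.span_le_restrictScalars ℚ D _ hu
    rw [hrk, one_mul, hs] at h1
    exact h1
  have hyli : LinearIndependent D y := by
    rw [linearIndependent_iff_card_le_finrank_span, Fintype.card_fin]
    exact hle
  obtain ⟨w, -, hw⟩ := finrank_eq_one_iff'.1 (show finrank K (img Λ U₁) = 1 from hrk)
  have hc : ∀ j, ∃ c : K, Λ (y j) = c • (w : Fin n → K) := by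
    intro j
    obtain ⟨c, hc⟩ := hw ⟨Λ (y j), Submodule.subset_span ⟨_, (b j).2, rfl⟩⟩
    exact ⟨c, (congrArg Subtype.val hc).symm⟩
  choose c hc using hc
  exact ⟨y, w, c, hyli, hc, Submodule.eq_of_le_of_finrank_le hyV hle, hyspan⟩

/-- the space generated by the products -/
def prod (X : Submodule ℚ D) (U : Submodule ℚ V) : Submodule ℚ V :=
  Submodule.span ℚ {v | ∃ a ∈ X, ∃ u ∈ U, v = a • u}

theorem main_class (h : Dat k M Λ) (V₀ : Submodule D V) [FiniteDimensional D V₀]
    (hs : 0 < finrank D V₀) {U₁ : Submodule ℚ V} (hU₁ : Ext Λ V₀ U₁) (hrk : rk Λ U₁ = 1)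
    {U : Submodule ℚ V} (hU : Ext Λ V₀ U) :
    ∃ X : Submodule ℚ D, finrank ℚ X = rk Λ U ∧ U = prod X U₁ := by
  classical
  obtain ⟨y, w, c, hy, hcw, hyV, hyU⟩ := basis_of h V₀ hU₁ hrk
  have := hU.fin
  have hDfin := h.finite
  let b := Module.finBasis ℚ U
  have hd : ∀ i, ∃ d : Fin (finrank D V₀) → D, ∑ j, d j • y j = (b i : V) := by
    intro i
    have h1 := hU.le _ (b i).2
    rw [← hyV] at h1
    exact (Submodule.mem_span_range_iff_exists_fun D).1 h1
  choose d hd using hd
  have hb : LinearIndependent ℚ fun i => (b i : V) :=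
    b.linearIndependent.map' U.subtype (Submodule.ker_subtype U)
  set X := Submodule.span ℚ (Set.range fun q : Fin (finrank ℚ U) × Fin (finrank D V₀) =>
    d q.1 q.2) with hX
  have h1 : finrank ℚ X ≤ rk Λ U := by
    refine classify (k := k) h hs hy hcw d ?_ ?_ hU.eq
    · simp only [hd]
      exact hb
    · unfold rk
      refine Submodule.finrank_mono (Submodule.span_mono ?_)
      rintro _ ⟨i, rfl⟩
      refine ⟨_, (b i).2, ?_⟩
      simp only [hd]
  have hUX : U ≤ prod X U₁ := by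
    intro u hu
    have h2 := b.sum_repr ⟨u, hu⟩
    have h3 := congrArg (fun z : U => (z : V)) h2
    simp only [Submodule.coe_sum, Submodule.coe_smul] at h3
    rw [← h3]
    refine Submodule.sum_mem _ fun i _ => Submodule.smul_mem _ _ ?_
    rw [← hd i]
    refine Submodule.sum_mem _ fun j _ => Submodule.subset_span ⟨d i j, ?_, y j, ?_, rfl⟩
    · exact Submodule.subset_span ⟨(i, j), rfl⟩
    · rw [hyU]
      exact Submodule.subset_span ⟨j, rfl⟩
  have hXfin : FiniteDimensional ℚ X := inferInstance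
  let bX := Module.finBasis ℚ X
  have hle : prod X U₁ ≤ Submodule.span ℚ (Set.range
      fun q : Fin (finrank ℚ X) × Fin (finrank D V₀) => (bX q.1 : D) • y q.2) := by
    unfold prod
    rw [Submodule.span_le]
    rintro _ ⟨a, ha, u, hu, rfl⟩
    rw [hyU] at hu
    obtain ⟨g, rfl⟩ := (Submodule.mem_span_range_iff_exists_fun ℚ).1 hu
    have h2 := congrArg (fun z : X => (z : D)) (bX.sum_repr ⟨a, ha⟩)
    simp only [Submodule.coe_sum, Submodule.coe_smul] at h2
    rw [← h2, Finset.sum_smul]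
    refine Submodule.sum_mem _ fun l _ => ?_
    rw [Finset.smul_sum]
    refine Submodule.sum_mem _ fun j _ => ?_
    have e1 : ((bX.repr ⟨a, ha⟩) l • (bX l : D)) • g j • y j =
        (bX.repr ⟨a, ha⟩) l • g j • ((bX l : D) • y j) := by
      rw [smul_assoc, smul_comm (bX l : D) (g j) (y j)]
    rw [e1]
    exact Submodule.smul_mem _ _ (Submodule.smul_mem _ _ (Submodule.subset_span ⟨(l, j), rfl⟩))
  have hspanfin : FiniteDimensional ℚ (Submodule.span ℚ (Set.range
      fun q : Fin (finrank ℚ X) × Fin (finrank D V₀) => (bX q.1 : D) • y q.2)) :=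
    FiniteDimensional.span_of_finite ℚ (Set.finite_range _)
  have hprodfin : FiniteDimensional ℚ (prod X U₁) := Submodule.finiteDimensional_of_le hle
  have h4 : finrank ℚ (prod X U₁) ≤ finrank ℚ X * finrank D V₀ := by
    refine (Submodule.finrank_mono hle).trans ?_
    refine (finrank_range_le_card _).trans ?_
    rw [Fintype.card_prod, Fintype.card_fin, Fintype.card_fin]
  have h5 : finrank ℚ U ≤ finrank ℚ (prod X U₁) := Submodule.finrank_mono hUX
  have h6 : rk Λ U ≤ finrank ℚ X := by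
    refine Nat.le_of_mul_le_mul_right ?_ hs
    rw [← hU.eq]
    exact h5.trans h4
  have h7 : finrank ℚ X = rk Λ U := le_antisymm h1 h6
  refine ⟨X, h7, Submodule.eq_of_le_of_finrank_le hUX ?_⟩
  rw [hU.eq, ← h7]
  exact h4

/-- extremal subspaces of rank one are unique up to multiplication -/
theorem translate (h : Dat k M Λ) (V₀ : Submodule D V) [FiniteDimensional D V₀]
    (hs : 0 < finrank D V₀) {U₁ : Submodule ℚ V} (hU₁ : Ext Λ V₀ U₁) (hrk : rk Λ U₁ = 1)
    {U : Submodule ℚ V} (hU : Ext Λ V₀ U) (hrk' : rk Λ U = 1) :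
    ∃ a : D, a ≠ 0 ∧ U = U₁.map (mulU V a) := by
  obtain ⟨X, hX, hUX⟩ := main_class h V₀ hs hU₁ hrk hU
  rw [hrk'] at hX
  obtain ⟨a, ha, hgen⟩ := finrank_eq_one_iff'.1 hX
  refine ⟨a, fun h0 => ha (Subtype.ext h0), ?_⟩
  rw [hUX]
  unfold prod
  apply le_antisymm
  · rw [Submodule.span_le]
    rintro _ ⟨x, hx, u, hu, rfl⟩
    obtain ⟨q, hq⟩ := hgen ⟨x, hx⟩
    have hq' : q • (a : D) = x := congrArg Subtype.val hq
    refine ⟨q • u, U₁.smul_mem q hu, ?_⟩
    change (a : D) • q • u = x • u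
    rw [← hq', smul_assoc, smul_comm]
  · rintro _ ⟨u, hu, rfl⟩
    exact Submodule.subset_span ⟨a, a.2, u, hu, rfl⟩

end abs

section av

variable {p : ℕ} [Fact p.Prime] {n : ℕ} (A : SimpleAbelianVariety p n)

/-- the logarithm on `A(ℚ) ⊗ ℚ`, in the algebraic closure -/
noncomputable def lam : ℚ ⊗[ℤ] A.Pts →+ (Fin n → AlgebraicClosure ℚ_[p]) where
  toFun v b := algebraMap ℚ_[p] (AlgebraicClosure ℚ_[p]) (extend (A.log.comp A.incl) v b)
  map_zero' := by
    funext b
    simp
  map_add' := by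
    intro v w
    funext b
    simp

/-- `L ⊗ ℚ` in `A(ℚ) ⊗ ℚ` -/
noncomputable def ratSpan (L : AddSubgroup A.Pts) : Submodule ℚ (ℚ ⊗[ℤ] A.Pts) :=
  Submodule.span ℚ ((fun x : A.Pts => (1 : ℚ) ⊗ₜ[ℤ] x) '' L)

instance qbar_closed : IsAlgClosed (Qbar p) :=
  (algebraicClosure.isAlgClosure ℚ (AlgebraicClosure ℚ_[p])).isAlgClosed

theorem dat (hA : ∀ x y : A.End, x * y = y * x) : Dat (Qbar p) A.lie (lam A) where
  pos := A.pos
  comm := hA
  smul δ v := by
    funext b
    have h := congrFun (A.log_smul δ v) b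
    change algebraMap ℚ_[p] (AlgebraicClosure ℚ_[p])
      (extend (A.log.comp A.incl) (δ • v) b) = _
    rw [h]
    simp only [Matrix.mulVec, dotProduct, Matrix.map_apply, map_sum, map_mul, ovf]
    refine Finset.sum_congr rfl fun a _ => ?_
    congr 1
  ind s v hv := A.independent s v hv

theorem ext_one (x : A.Pts) : extend (A.log.comp A.incl) ((1 : ℚ) ⊗ₜ x) = A.log (A.incl x) := by
  rw [extend_tmul, one_smul]
  rfl

theorem rk_le (L : AddSubgroup A.Pts) {r : ℕ} (h : HasZpRank p (closure A L) r) :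
    rk (lam A) (ratSpan A L) ≤ r := by
  rw [rank_closure A L h]
  have h1 := finrank_span_map_le (K := AlgebraicClosure ℚ_[p])
    (fun x : L => extend (A.log.comp A.incl) ((1 : ℚ) ⊗ₜ (x : A.Pts)))
  unfold rk ratSpan
  rw [img_span]
  have e1 : (lam A '' ((fun x : A.Pts => (1 : ℚ) ⊗ₜ[ℤ] x) '' (L : Set A.Pts))) =
      Set.range fun x : L => fun b => algebraMap ℚ_[p] (AlgebraicClosure ℚ_[p])
        (extend (A.log.comp A.incl) ((1 : ℚ) ⊗ₜ (x : A.Pts)) b) := by
    ext w
    constructor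
    · rintro ⟨_, ⟨x, hx, rfl⟩, rfl⟩
      exact ⟨⟨x, hx⟩, rfl⟩
    · rintro ⟨x, rfl⟩
      exact ⟨_, ⟨x, x.2, rfl⟩, rfl⟩
  have e2 : Submodule.span ℚ_[p] (Set.range fun x : L =>
      extend (A.log.comp A.incl) ((1 : ℚ) ⊗ₜ (x : A.Pts))) = logSpan A L := by
    unfold logSpan
    congr 1
    ext w
    constructor
    · rintro ⟨x, rfl⟩
      exact ⟨x, x.2, (ext_one A _).symm⟩
    · rintro ⟨x, hx, rfl⟩
      exact ⟨⟨x, hx⟩, ext_one A _⟩
  rw [e1]
  rw [e2] at h1
  exact h1

theorem fin_ratSpan {L : AddSubgroup A.Pts} (hL : L.FG) :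
    FiniteDimensional ℚ (ratSpan A L) ∧ finrank ℚ (ratSpan A L) = rank A L ∧
      FiniteDimensional A.End (endSpan A L) ∧ finrank A.End (endSpan A L) ≤ rank A L := by
  obtain ⟨e, he, hspan⟩ := exists_family A L hL
  have h1 : ratSpan A L = Submodule.span ℚ (Set.range fun i =>
      (1 : ℚ) ⊗ₜ[ℤ] ((e i : L) : A.Pts)) := by
    apply le_antisymm
    · unfold ratSpan
      rw [Submodule.span_le]
      rintro _ ⟨x, hx, rfl⟩
      exact hspan x hx
    · refine Submodule.span_mono ?_
      rintro _ ⟨i, rfl⟩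
      exact ⟨_, (e i).2, rfl⟩
  have h2 : endSpan A L = Submodule.span A.End (Set.range fun i =>
      (1 : ℚ) ⊗ₜ[ℤ] ((e i : L) : A.Pts)) := by
    apply le_antisymm
    · unfold endSpan
      rw [Submodule.span_le]
      rintro _ ⟨x, hx, rfl⟩
      exact Submodule.span_le_restrictScalars ℚ A.End _ (hspan x hx)
    · refine Submodule.span_mono ?_
      rintro _ ⟨i, rfl⟩
      exact ⟨_, (e i).2, rfl⟩
  refine ⟨?_, ?_, ?_, ?_⟩
  · rw [h1]
    exact FiniteDimensional.span_of_finite ℚ (Set.finite_range _)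
  · rw [h1, finrank_span_eq_card he, Fintype.card_fin]
  · rw [h2]
    exact FiniteDimensional.span_of_finite A.End (Set.finite_range _)
  · rw [h2]
    exact (finrank_range_le_card _).trans (Fintype.card_fin _).le

theorem le_endSpan (L : AddSubgroup A.Pts) : ∀ u ∈ ratSpan A L, u ∈ endSpan A L := by
  intro u hu
  exact Submodule.span_le_restrictScalars ℚ A.End _ hu

/-- if the closure has positive rank then the space is not zero -/
theorem pos_of {L : AddSubgroup A.Pts} (hL : L.FG) {r : ℕ} (hr : 0 < r)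
    (h : HasZpRank p (closure A L) r) : 0 < finrank A.End (endSpan A L) := by
  have := (fin_ratSpan A hL).2.2.1
  rw [Module.finrank_pos_iff, Submodule.nontrivial_iff_ne_bot]
  intro h0
  have h1 : logSpan A L = ⊥ := by
    rw [eq_bot_iff]
    unfold logSpan
    rw [Submodule.span_le]
    rintro _ ⟨x, hx, rfl⟩
    have h2 : (1 : ℚ) ⊗ₜ[ℤ] x ∈ endSpan A L := Submodule.subset_span ⟨x, hx, rfl⟩
    rw [h0] at h2
    have h3 : (1 : ℚ) ⊗ₜ[ℤ] x = 0 := (Submodule.mem_bot _).1 h2
    have h4 := ext_one A x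
    rw [h3, map_zero] at h4
    exact (Submodule.mem_bot _).2 h4.symm
  have h5 := rank_closure A L h
  rw [h1, finrank_bot] at h5
  omega

theorem ext_of (hA : ∀ x y : A.End, x * y = y * x) {L : AddSubgroup A.Pts} (hL : L.FG) {r : ℕ}
    (h : HasZpRank p (closure A L) r) (hrank : rank A L = r * finrank A.End (endSpan A L)) :
    Ext (lam A) (endSpan A L) (ratSpan A L) ∧
      (0 < finrank A.End (endSpan A L) → rk (lam A) (ratSpan A L) = r) := by
  obtain ⟨f1, f2, f3, f4⟩ := fin_ratSpan A hL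
  have h1 := rk_le A L h
  have h2 := (dat A hA).ineq (endSpan A L) (ratSpan A L) (le_endSpan A L)
  rw [f2, hrank] at h2
  have h3 := Nat.mul_le_mul_right (finrank A.End (endSpan A L)) h1
  refine ⟨⟨f1, le_endSpan A L, ?_⟩, fun hs => ?_⟩
  · rw [f2, hrank]
    omega
  · exact le_antisymm h1 (Nat.le_of_mul_le_mul_right h2 hs)

/-- closures of rank one -/
theorem one_of (hA : ∀ x y : A.End, x * y = y * x) {L : AddSubgroup A.Pts} (hL : L.FG)
    (h : HasZpRank p (closure A L) 1) : rank A L = 1 * finrank A.End (endSpan A L) := by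
  obtain ⟨f1, f2, f3, f4⟩ := fin_ratSpan A hL
  have h1 := rk_le A L h
  have h2 := (dat A hA).ineq (endSpan A L) (ratSpan A L) (le_endSpan A L)
  rw [f2] at h2
  have h3 := Nat.mul_le_mul_right (finrank A.End (endSpan A L)) h1
  omega

/-- every vector is a rational multiple of a point -/
theorem exists_point (v : ℚ ⊗[ℤ] A.Pts) :
    ∃ (N : ℕ) (x : A.Pts), 0 < N ∧ (N : ℚ) • v = (1 : ℚ) ⊗ₜ[ℤ] x := by
  induction v using TensorProduct.induction_on with
  | zero => exact ⟨1, 0, one_pos, by simp⟩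
  | tmul q x =>
    refine ⟨q.den, q.num • x, q.pos, ?_⟩
    rw [TensorProduct.smul_tmul', smul_eq_mul, Rat.den_mul_eq_num, TensorProduct.tmul_smul,
      TensorProduct.smul_tmul']
    congr 1
    simp
  | add a b ha hb =>
    obtain ⟨N, x, hN, hx⟩ := ha
    obtain ⟨N', x', hN', hx'⟩ := hb
    refine ⟨N * N', N' • x + N • x', Nat.mul_pos hN hN', ?_⟩
    rw [TensorProduct.tmul_add, TensorProduct.tmul_smul, TensorProduct.tmul_smul, ← hx, ← hx',
      smul_add]
    congr 1
    · rw [← Nat.cast_smul_eq_nsmul ℚ, smul_smul]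
      push_cast
      ring_nf
    · rw [← Nat.cast_smul_eq_nsmul ℚ, smul_smul]
      push_cast
      ring_nf

/-- a finite dimensional subspace comes from a finitely generated group -/
theorem exists_group (U : Submodule ℚ (ℚ ⊗[ℤ] A.Pts)) [FiniteDimensional ℚ U] :
    ∃ L : AddSubgroup A.Pts, L.FG ∧ ratSpan A L = U := by
  classical
  let b := Module.finBasis ℚ U
  have h1 : ∀ i, ∃ (N : ℕ) (x : A.Pts), 0 < N ∧
      (N : ℚ) • ((b i : U) : ℚ ⊗[ℤ] A.Pts) = (1 : ℚ) ⊗ₜ[ℤ] x := fun i => exists_point A _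
  choose N x hN hx using h1
  refine ⟨AddSubgroup.closure (Set.range x), ?_, ?_⟩
  · exact ⟨Finset.univ.image x, by rw [Finset.coe_image, Finset.coe_univ, Set.image_univ]⟩
  · apply le_antisymm
    · unfold ratSpan
      rw [Submodule.span_le]
      rintro _ ⟨z, hz, rfl⟩
      change (1 : ℚ) ⊗ₜ[ℤ] z ∈ U
      induction hz using AddSubgroup.closure_induction with
      | mem z hz =>
        obtain ⟨i, rfl⟩ := hz
        rw [← hx]
        exact U.smul_mem _ (b i).2
      | zero =>
        rw [TensorProduct.tmul_zero]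
        exact U.zero_mem
      | add a c _ _ ha hc =>
        rw [TensorProduct.tmul_add]
        exact U.add_mem ha hc
      | neg a _ ha =>
        rw [TensorProduct.tmul_neg]
        exact U.neg_mem ha
    · intro u hu
      have h2 := congrArg (fun z : U => (z : ℚ ⊗[ℤ] A.Pts)) (b.sum_repr ⟨u, hu⟩)
      simp only [Submodule.coe_sum, Submodule.coe_smul] at h2
      rw [← h2]
      refine Submodule.sum_mem _ fun i _ => Submodule.smul_mem _ _ ?_
      have h3 : ((b i : U) : ℚ ⊗[ℤ] A.Pts) = ((N i : ℚ)⁻¹) • ((1 : ℚ) ⊗ₜ[ℤ] x i) := by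
        rw [← hx, smul_smul, inv_mul_cancel₀ (by exact_mod_cast (hN i).ne'), one_smul]
      rw [h3]
      exact Submodule.smul_mem _ _ (Submodule.subset_span
        ⟨x i, AddSubgroup.subset_closure ⟨i, rfl⟩, rfl⟩)

theorem endSpan_eq (L : AddSubgroup A.Pts) :
    endSpan A L = Submodule.span A.End (ratSpan A L : Set (ℚ ⊗[ℤ] A.Pts)) := by
  apply le_antisymm
  · exact Submodule.span_mono fun x hx => Submodule.subset_span hx
  · rw [Submodule.span_le]
    exact fun x hx => le_endSpan A L x hx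

/-- if the image has rank one, then so has the closure -/
theorem closure_one {L : AddSubgroup A.Pts} (h : rk (lam A) (ratSpan A L) = 1) :
    HasZpRank p (closure A L) 1 := by
  have h1 := Pool.Agent.E8helper14.PA.hasZpRank_logSpan A L
  have h2 := rk_le A L h1
  rw [h] at h2
  -- the logarithms are proportional
  obtain ⟨w, hw0, hw⟩ := finrank_eq_one_iff'.1
    (show finrank (AlgebraicClosure ℚ_[p]) (img (lam A) (ratSpan A L)) = 1 from h)
  have hlog : ∀ x ∈ L, ∃ c : AlgebraicClosure ℚ_[p],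
      ∀ b, algebraMap ℚ_[p] (AlgebraicClosure ℚ_[p]) (A.log (A.incl x) b) =
        c * (w : Fin n → AlgebraicClosure ℚ_[p]) b := by
    intro x hx
    obtain ⟨c, hc⟩ := hw ⟨lam A ((1 : ℚ) ⊗ₜ x),
      Submodule.subset_span ⟨_, Submodule.subset_span ⟨x, hx, rfl⟩, rfl⟩⟩
    refine ⟨c, fun b => ?_⟩
    have h3 := congrFun (congrArg Subtype.val hc) b
    rw [← ext_one A x]
    exact h3.symm
  by_cases hex : ∃ x ∈ L, A.log (A.incl x) ≠ 0
  · obtain ⟨x₀, hx₀, h0⟩ := hex
    obtain ⟨b₀, hb₀⟩ : ∃ b, A.log (A.incl x₀) b ≠ 0 := by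
      by_contra h3
      push Not at h3
      exact h0 (funext h3)
    have h4 : logSpan A L = Submodule.span ℚ_[p] {A.log (A.incl x₀)} := by
      apply le_antisymm
      · unfold logSpan
        rw [Submodule.span_le]
        rintro _ ⟨x, hx, rfl⟩
        rw [SetLike.mem_coe, Submodule.mem_span_singleton]
        refine ⟨A.log (A.incl x) b₀ / A.log (A.incl x₀) b₀, ?_⟩
        funext b
        rw [Pi.smul_apply, smul_eq_mul]
        change A.log (A.incl x) b₀ / A.log (A.incl x₀) b₀ * A.log (A.incl x₀) b =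
          A.log (A.incl x) b
        rw [div_mul_eq_mul_div, div_eq_iff hb₀]
        apply (algebraMap ℚ_[p] (AlgebraicClosure ℚ_[p])).injective
        obtain ⟨c, hc⟩ := hlog x hx
        obtain ⟨c₀, hc₀⟩ := hlog x₀ hx₀
        rw [map_mul, map_mul, hc, hc, hc₀, hc₀]
        ring
      · rw [Submodule.span_singleton_le_iff_mem]
        exact Submodule.subset_span ⟨x₀, hx₀, rfl⟩
    rw [h4, finrank_span_singleton h0] at h1
    exact h1
  · push Not at hex
    exfalso
    have h4 : logSpan A L = ⊥ := by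
      rw [eq_bot_iff]
      unfold logSpan
      rw [Submodule.span_le]
      rintro _ ⟨x, hx, rfl⟩
      exact (Submodule.mem_bot _).2 (hex x hx)
    rw [h4, finrank_bot] at h2
    omega

end av

end Pool.Agent.U979.AV
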