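import Pool.Agent.U979.AV.Cls

set_option autoImplicit false

/-!
# The lattice of extremal subspaces (helper979)
-/

namespace Pool.Agent.U979.AV

open Module Matrix Pool.Agent.E8helper40.PC

variable {k K D V : Type*} [Field k] [IsAlgClosed k] [CharZero k] [Field K] [CharZero K]
  [Algebra k K] [DivisionRing D] [CharZero D] [AddCommGroup V] [Module D V] [Module ℚ V]
  {n : ℕ} {M : D →+* Matrix (Fin n) (Fin n) ℚ} {Λ : V →+ (Fin n → K)}

/-- the span of the image -/
noncomputable def img (Λ : V →+ (Fin n → K)) (U : Submodule ℚ V) : Submodule K (Fin n → K) :=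
  Submodule.span K (Λ '' U)

/-- the dimension of the span of the image -/
noncomputable def rk (Λ : V →+ (Fin n → K)) (U : Submodule ℚ V) : ℕ := finrank K (img Λ U)

theorem img_mono {U U' : Submodule ℚ V} (h : U ≤ U') : img Λ U ≤ img Λ U' :=
  Submodule.span_mono (Set.image_mono h)

theorem rk_mono {U U' : Submodule ℚ V} (h : U ≤ U') : rk Λ U ≤ rk Λ U' :=
  Submodule.finrank_mono (img_mono h)

theorem img_span (S : Set V) : img Λ (Submodule.span ℚ S) = Submodule.span K (Λ '' S) := by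
  apply le_antisymm
  · unfold img
    rw [Submodule.span_le]
    rintro _ ⟨x, hx, rfl⟩
    refine Submodule.span_induction ?_ ?_ ?_ ?_ hx
    · intro x hx
      exact Submodule.subset_span ⟨x, hx, rfl⟩
    · rw [map_zero]
      exact Submodule.zero_mem _
    · intro a b _ _ ha hb
      rw [map_add]
      exact Submodule.add_mem _ ha hb
    · intro q b _ hb
      rw [map_rat_smul]
      have : q • Λ b = (q : K) • Λ b := by
        funext i
        rw [Pi.smul_apply, Pi.smul_apply, Rat.smul_def, smul_eq_mul]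
      rw [this]
      exact Submodule.smul_mem _ _ hb
  · exact Submodule.span_mono (Set.image_mono Submodule.subset_span)

theorem img_sup (U U' : Submodule ℚ V) : img Λ (U ⊔ U') = img Λ U ⊔ img Λ U' := by
  have h1 : U ⊔ U' = Submodule.span ℚ ((U : Set V) ∪ U') := by
    rw [Submodule.span_union, Submodule.span_eq, Submodule.span_eq]
  rw [h1, img_span, Set.image_union, Submodule.span_union]
  rfl

theorem finrank_top_subfield (W : Submodule D V) :
    finrank (⊤ : Subfield D) W = finrank D W := by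
  have h := rank_eq_of_equiv_equiv (R := (⊤ : Subfield D)) (R' := D) (M := W) (M₁ := W)
    (i := (⟨fun x => (x : D), rfl⟩ : ZeroHom (⊤ : Subfield D) D)) (j := AddEquiv.refl W)
    ⟨fun a b hab => Subtype.ext hab, fun b => ⟨⟨b, trivial⟩, rfl⟩⟩ (fun r m => rfl)
  unfold Module.finrank
  rw [h]

theorem Dat.ineq (h : Dat k M Λ) (V₀ : Submodule D V) [FiniteDimensional D V₀]
    (U : Submodule ℚ V) [FiniteDimensional ℚ U] (hU : ∀ u ∈ U, u ∈ V₀) :
    finrank ℚ U ≤ rk Λ U * finrank D V₀ := by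
  let b := Module.finBasis ℚ U
  have hb : LinearIndependent ℚ fun i => (b i : V) :=
    b.linearIndependent.map' U.subtype (Submodule.ker_subtype U)
  have h1 := card_le (k := k) h.pos M (⊤ : Subfield D) (fun x _ y _ => h.comm x y) Λ h.smul h.ind
    (fun i => (b i : V)) hb
  refine h1.trans (Nat.mul_le_mul ?_ ?_)
  · unfold rk
    refine Submodule.finrank_mono (Submodule.span_mono ?_)
    rintro _ ⟨i, rfl⟩
    exact ⟨_, (b i).2, rfl⟩
  · rw [finrank_top_subfield]
    refine Submodule.finrank_mono ?_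
    rw [Submodule.span_le]
    rintro _ ⟨i, rfl⟩
    exact hU _ (b i).2

/-- the extremal subspaces -/
structure Ext (Λ : V →+ (Fin n → K)) (V₀ : Submodule D V) (U : Submodule ℚ V) : Prop where
  fin : FiniteDimensional ℚ U
  le : ∀ u ∈ U, u ∈ V₀
  eq : finrank ℚ U = rk Λ U * finrank D V₀

theorem Ext.sup_inf (h : Dat k M Λ) {V₀ : Submodule D V} [FiniteDimensional D V₀]
    {U U' : Submodule ℚ V} (hU : Ext Λ V₀ U) (hU' : Ext Λ V₀ U') :
    Ext Λ V₀ (U ⊔ U') ∧ Ext Λ V₀ (U ⊓ U') := by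
  have := hU.fin
  have := hU'.fin
  have f1 : FiniteDimensional ℚ (U ⊔ U' : Submodule ℚ V) := Submodule.finiteDimensional_sup U U'
  have f2 : FiniteDimensional ℚ (U ⊓ U' : Submodule ℚ V) :=
    Submodule.finiteDimensional_of_le inf_le_left
  have l1 : ∀ u ∈ U ⊔ U', u ∈ V₀ := by
    intro u hu
    obtain ⟨a, ha, b, hb, rfl⟩ := Submodule.mem_sup.1 hu
    exact V₀.add_mem (hU.le a ha) (hU'.le b hb)
  have l2 : ∀ u ∈ U ⊓ U', u ∈ V₀ := fun u hu => hU.le u hu.1
  have i1 := h.ineq V₀ (U ⊔ U') l1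
  have i2 := h.ineq V₀ (U ⊓ U') l2
  have e1 := Submodule.finrank_sup_add_finrank_inf_eq U U'
  have e2 := Submodule.finrank_sup_add_finrank_inf_eq (img Λ U) (img Λ U')
  have e3 : rk Λ (U ⊔ U') = finrank K (img Λ U ⊔ img Λ U' : Submodule K (Fin n → K)) := by
    unfold rk
    rw [img_sup]
  have e4 : rk Λ (U ⊓ U') ≤ finrank K (img Λ U ⊓ img Λ U' : Submodule K (Fin n → K)) := by
    unfold rk
    exact Submodule.finrank_mono (le_inf (img_mono inf_le_left) (img_mono inf_le_right))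
  have e5 : rk Λ (U ⊔ U') + rk Λ (U ⊓ U') ≤ rk Λ U + rk Λ U' := by
    rw [e3]
    exact (Nat.add_le_add_left e4 _).trans e2.le
  have e6 : rk Λ (U ⊔ U') * finrank D V₀ + rk Λ (U ⊓ U') * finrank D V₀ ≤
      rk Λ U * finrank D V₀ + rk Λ U' * finrank D V₀ := by
    rw [← Nat.add_mul, ← Nat.add_mul]
    exact Nat.mul_le_mul_right _ e5
  have e7 := hU.eq
  have e8 := hU'.eq
  exact ⟨⟨f1, l1, by omega⟩, ⟨f2, l2, by omega⟩⟩

/-- multiplication by an element of `D` -/
def mulU (V : Type*) [AddCommGroup V] [Module D V] [Module ℚ V] (a : D) : V →ₗ[ℚ] V where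
  toFun v := a • v
  map_add' := smul_add a
  map_smul' q v := smul_comm a q v

theorem mulU_inj {a : D} (ha : a ≠ 0) : Function.Injective (mulU V a) := fun x y hxy => by
  have h1 : a • x = a • y := hxy
  have h2 := congrArg (fun z => a⁻¹ • z) h1
  simpa [smul_smul, inv_mul_cancel₀ ha] using h2

theorem Dat.rk_mul (h : Dat k M Λ) (U : Submodule ℚ V) {a : D} (ha : a ≠ 0) :
    rk Λ (U.map (mulU V a)) = rk Λ U := by
  have hinj : Function.Injective (ovf K (M a)).mulVecLin := by
    intro x y hxy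
    rw [Matrix.mulVecLin_apply, Matrix.mulVecLin_apply] at hxy
    have h1 := congrArg (fun z => ovf K (M a⁻¹) *ᵥ z) hxy
    simp only [Matrix.mulVec_mulVec, ← ovf_mul, ← map_mul, inv_mul_cancel₀ ha, map_one] at h1
    have h2 : ovf K (1 : Matrix (Fin n) (Fin n) ℚ) = 1 := by
      ext i j
      rw [ovf, Matrix.map_apply]
      by_cases hij : i = j
      · subst hij
        simp
      · rw [Matrix.one_apply_ne hij, Matrix.one_apply_ne hij, map_zero]
    rw [h2, Matrix.one_mulVec, Matrix.one_mulVec] at h1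
    exact h1
  have h1 : img Λ (U.map (mulU V a)) = (img Λ U).map (ovf K (M a)).mulVecLin := by
    unfold img
    rw [Submodule.map_span]
    congr 1
    ext w
    constructor
    · rintro ⟨_, ⟨u, hu, rfl⟩, rfl⟩
      exact ⟨Λ u, ⟨u, hu, rfl⟩, (h.smul a u).symm⟩
    · rintro ⟨_, ⟨u, hu, rfl⟩, rfl⟩
      exact ⟨a • u, ⟨u, hu, rfl⟩, h.smul a u⟩
  unfold rk
  rw [h1]
  exact (LinearEquiv.finrank_eq (Submodule.equivMapOfInjective _ hinj (img Λ U))).symm

theorem Ext.mul (h : Dat k M Λ) {V₀ : Submodule D V} {U : Submodule ℚ V} (hU : Ext Λ V₀ U)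
    {a : D} (ha : a ≠ 0) : Ext Λ V₀ (U.map (mulU V a)) := by
  have := hU.fin
  refine ⟨inferInstance, ?_, ?_⟩
  · rintro _ ⟨u, hu, rfl⟩
    exact V₀.smul_mem a (hU.le u hu)
  · rw [h.rk_mul U ha, ← hU.eq]
    exact (LinearEquiv.finrank_eq (Submodule.equivMapOfInjective _ (mulU_inj ha) U)).symm

theorem Dat.finite (h : Dat k M Λ) : Module.Finite ℚ D := by
  have : Nonempty (Fin n) := ⟨⟨0, h.pos⟩⟩
  have hinj : Function.Injective M.toRatAlgHom := M.injective
  exact Module.Finite.of_injective M.toRatAlgHom.toLinearMap hinj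

/-- a subspace over `D`, as a rational space -/
def res (V₁ : Submodule D V) : Submodule ℚ V := V₁.restrictScalars ℚ

theorem finrank_res (V₁ : Submodule D V) :
    finrank ℚ (res V₁) = finrank ℚ D * finrank D V₁ := by
  have h1 : finrank ℚ (res V₁) = finrank ℚ V₁ :=
    LinearEquiv.finrank_eq (LinearEquiv.refl ℚ V₁ : _ ≃ₗ[ℚ] V₁)
  rw [h1]
  exact (Module.finrank_mul_finrank ℚ D V₁).symm

/-- **Prime degree.** -/
theorem prime_case (h : Dat k M Λ) (V₀ : Submodule D V) [FiniteDimensional D V₀]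
    (hp : (finrank ℚ D).Prime) {U : Submodule ℚ V} (hU : Ext Λ V₀ U) (hU0 : U ≠ ⊥)
    (hU1 : ∃ v ∈ V₀, v ∉ U) : ∃ U₁, Ext Λ V₀ U₁ ∧ rk Λ U₁ = 1 := by
  classical
  have hDfin := h.finite
  have hV₀fin : FiniteDimensional ℚ V₀ := Module.Finite.trans D V₀
  have hresfin : FiniteDimensional ℚ (res V₀) := hV₀fin
  -- a minimal extremal subspace
  have hex : ∃ N : ℕ, ∃ U' : Submodule ℚ V, Ext Λ V₀ U' ∧ U' ≠ ⊥ ∧ finrank ℚ U' = N :=
    ⟨_, U, hU, hU0, rfl⟩
  obtain ⟨U₀, hU₀, hU₀0, hN⟩ := Nat.find_spec hex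
  have hmin : ∀ U' : Submodule ℚ V, Ext Λ V₀ U' → U' ≠ ⊥ → finrank ℚ U₀ ≤ finrank ℚ U' := by
    intro U' h1 h2
    rw [hN]
    exact Nat.find_min' hex ⟨U', h1, h2, rfl⟩
  have := hU₀.fin
  set V₁ : Submodule D V := Submodule.span D (U₀ : Set V) with hV₁
  have hV₁0 : V₁ ≤ V₀ := Submodule.span_le.2 fun x hx => hU₀.le x hx
  have hpos : 0 < finrank ℚ U₀ := by
    rw [Module.finrank_pos_iff]
    exact Submodule.nontrivial_iff_ne_bot.2 hU₀0
  -- a maximal sum of translates
  let Q : ℕ → Prop := fun N => ∃ S : Submodule ℚ V, Ext Λ V₀ S ∧ (∀ x ∈ S, x ∈ V₁) ∧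
    finrank ℚ S = N * finrank ℚ U₀
  have hQb : ∀ N, Q N → N ≤ finrank ℚ (res V₀) := by
    rintro N ⟨S, hS, -, hSN⟩
    have h1 : finrank ℚ S ≤ finrank ℚ (res V₀) := Submodule.finrank_mono fun x hx => hS.le x hx
    calc N ≤ N * finrank ℚ U₀ := Nat.le_mul_of_pos_right N hpos
      _ = finrank ℚ S := hSN.symm
      _ ≤ _ := h1
  have hQ0 : Q 0 := by
    refine ⟨⊥, ⟨inferInstance, ?_, ?_⟩, ?_, ?_⟩
    · intro u hu
      rw [(Submodule.mem_bot ℚ).1 hu]
      exact V₀.zero_mem
    · have h1 : img Λ (⊥ : Submodule ℚ V) = ⊥ := by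
        rw [eq_bot_iff]
        unfold img
        rw [Submodule.span_le]
        rintro _ ⟨x, hx, rfl⟩
        have hx' : x = 0 := hx
        rw [hx', map_zero]
        exact Submodule.zero_mem _
      unfold rk
      rw [h1, finrank_bot, finrank_bot, zero_mul]
    · intro x hx
      rw [(Submodule.mem_bot ℚ).1 hx]
      exact V₁.zero_mem
    · rw [finrank_bot, zero_mul]
  obtain ⟨N, hQN, hNmax⟩ : ∃ N, Q N ∧ ∀ N', Q N' → N' ≤ N := by
    have h1 : ∃ N, Q (finrank ℚ (res V₀) - N) := ⟨finrank ℚ (res V₀), by rw [Nat.sub_self]; exact hQ0⟩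
    refine ⟨finrank ℚ (res V₀) - Nat.find h1, Nat.find_spec h1, fun N' hN' => ?_⟩
    have h2 := hQb N' hN'
    have h3 : Nat.find h1 ≤ finrank ℚ (res V₀) - N' := Nat.find_min' h1 (by
      rwa [Nat.sub_sub_self h2])
    omega
  obtain ⟨S, hS, hSV, hSN⟩ := hQN
  have := hS.fin
  -- all translates are in `S`
  have hall : ∀ (a : D) (x : V), x ∈ U₀ → a • x ∈ S := by
    intro a x hx
    by_cases ha : a = 0
    · rw [ha, zero_smul]
      exact S.zero_mem
    have hT := hU₀.mul h ha
    have hTf : finrank ℚ (U₀.map (mulU V a)) = finrank ℚ U₀ :=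
      (LinearEquiv.finrank_eq (Submodule.equivMapOfInjective _ (mulU_inj ha) U₀)).symm
    have := hT.fin
    obtain ⟨h1, h2⟩ := hT.sup_inf h hS
    by_cases h3 : U₀.map (mulU V a) ⊓ S = ⊥
    · exfalso
      have h4 := Submodule.finrank_sup_add_finrank_inf_eq (U₀.map (mulU V a)) S
      rw [h3, finrank_bot, add_zero, hTf, hSN] at h4
      have h5 : Q (N + 1) := by
        refine ⟨_, h1, ?_, ?_⟩
        · intro z hz
          obtain ⟨a', ha', b', hb', rfl⟩ := Submodule.mem_sup.1 hz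
          obtain ⟨u, hu, rfl⟩ := ha'
          exact V₁.add_mem (V₁.smul_mem a (Submodule.subset_span hu)) (hSV b' hb')
        · rw [h4]
          ring
      have := hNmax _ h5
      omega
    · have h4 := hmin _ h2 h3
      have h5 : U₀.map (mulU V a) ⊓ S = U₀.map (mulU V a) :=
        Submodule.eq_of_le_of_finrank_le inf_le_left (by rw [hTf]; exact h4)
      have h6 : U₀.map (mulU V a) ≤ S := inf_eq_left.1 h5
      exact h6 ⟨x, hx, rfl⟩
  have hSeq : S = res V₁ := by
    apply le_antisymm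
    · exact fun x hx => hSV x hx
    · intro x hx
      have hx' : x ∈ Submodule.span D (U₀ : Set V) := hx
      obtain ⟨N', f, g, rfl⟩ := Submodule.mem_span_set'.1 hx'
      exact S.sum_mem fun i _ => hall _ _ (g i).2
  -- the rank of `V₁` is at least the degree
  have hrk : finrank ℚ D ≤ rk Λ S := by
    obtain ⟨v, hv, hv0⟩ := Submodule.exists_mem_ne_zero_of_ne_bot hU₀0
    have h1 : FiniteDimensional ℚ (res (Submodule.span D {v})) :=
      (Module.Finite.trans D (Submodule.span D {v}) : Module.Finite ℚ (Submodule.span D {v}))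
    have h2 := h.ineq (Submodule.span D {v}) (res (Submodule.span D {v})) fun u hu => hu
    rw [finrank_res, finrank_span_singleton hv0, mul_one, mul_one] at h2
    refine h2.trans (rk_mono ?_)
    intro x hx
    obtain ⟨a, rfl⟩ := Submodule.mem_span_singleton.1 (show x ∈ Submodule.span D {v} from hx)
    exact hall a v hv
  have hV₁fin : FiniteDimensional D V₁ := Submodule.finiteDimensional_of_le hV₁0
  have hDpos : 0 < finrank ℚ D := hp.pos
  have e1 : finrank ℚ S = finrank ℚ D * finrank D V₁ := by rw [hSeq, finrank_res]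
  have e2 : finrank D V₀ ≤ finrank D V₁ := by
    have h1 := hS.eq
    rw [e1] at h1
    have h2 : finrank ℚ D * finrank D V₀ ≤ finrank ℚ D * finrank D V₁ := by
      rw [h1]
      exact Nat.mul_le_mul_right _ hrk
    exact Nat.le_of_mul_le_mul_left h2 hDpos
  have hV : V₁ = V₀ := Submodule.eq_of_le_of_finrank_le hV₁0 e2
  have hs : 0 < finrank D V₀ := by
    rw [Module.finrank_pos_iff, Submodule.nontrivial_iff_ne_bot]
    rintro h0
    apply hU₀0
    rw [Submodule.eq_bot_iff]
    intro x hx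
    have := hU₀.le x hx
    rw [h0] at this
    exact (Submodule.mem_bot D).1 this
  -- `f = N r₀`
  have e3 : finrank ℚ D = N * rk Λ U₀ := by
    have h1 : finrank ℚ D * finrank D V₀ = N * rk Λ U₀ * finrank D V₀ := by
      rw [← hV, ← e1, hSN, hU₀.eq, hV]
      ring
    exact Nat.eq_of_mul_eq_mul_right hs h1
  have hr0 : rk Λ U₀ ∣ finrank ℚ D := ⟨N, by rw [e3]; ring⟩
  rcases (Nat.dvd_prime hp).1 hr0 with h1 | h1
  · exact ⟨U₀, hU₀, h1⟩
  · exfalso
    obtain ⟨v, hv, hvU⟩ := hU1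
    have := hU.fin
    have h2 := hmin U hU hU0
    rw [hU₀.eq, h1] at h2
    have h3 : finrank ℚ U < finrank ℚ (res V₀) := by
      refine Submodule.finrank_lt_finrank_of_lt (lt_of_le_of_ne (fun x hx => hU.le x hx) ?_)
      intro h4
      apply hvU
      rw [h4]
      exact hv
    rw [finrank_res] at h3
    omega

end Pool.Agent.U979.AV
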