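import Pool.Agent.E8helper40.PC.Linear

set_option autoImplicit false

/-!
# Common eigenvectors and eigenvalues (helper979)
-/

namespace Pool.Agent.U979.AV

open Module Matrix Pool.Agent.E8helper40.PC

section eig

variable {k K : Type*} [Field k] [IsAlgClosed k] [Field K] [Algebra k K]

/-- a vector with `k`-independent coordinates is an eigenvector of a matrix over `k` only if the matrix is scalar -/
theorem eig_scalar {s : ℕ} (hs : 0 < s) (A : Matrix (Fin s) (Fin s) k) (γ : K) (c : Fin s → K)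
    (hc : LinearIndependent k c) (h : ∀ l, ∑ j, algebraMap k K (A l j) * c j = γ * c l) :
    ∃ g : k, γ = algebraMap k K g ∧ ∀ l j, A l j = if l = j then g else 0 := by
  classical
  have hc0 : c ≠ 0 := by
    intro h0
    exact hc.ne_zero ⟨0, hs⟩ (congrFun h0 _)
  -- `γ` is an eigenvalue
  have hdet : (Matrix.scalar (Fin s) γ - A.map (algebraMap k K)).det = 0 := by
    rw [← Matrix.exists_mulVec_eq_zero_iff]
    refine ⟨c, hc0, ?_⟩
    funext l
    rw [Matrix.sub_mulVec, Pi.sub_apply, Pi.zero_apply, sub_eq_zero]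
    have e1 : (Matrix.scalar (Fin s) γ).mulVec c l = γ * c l := by
      rw [Matrix.scalar_apply, Matrix.mulVec_diagonal]
    rw [e1, ← h l]
    rfl
  have hroot : (A.map (algebraMap k K)).charpoly.eval γ = 0 := by
    rw [Matrix.eval_charpoly]
    exact hdet
  have hint : IsIntegral k γ := by
    refine ⟨A.charpoly, A.charpoly_monic, ?_⟩
    rw [← Polynomial.eval_map, ← Matrix.charpoly_map]
    exact hroot
  obtain ⟨g, hg⟩ : γ ∈ (algebraMap k K).range := by
    refine minpoly.mem_range_of_degree_eq_one k γ ?_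
    exact IsAlgClosed.degree_eq_one_of_irreducible k (minpoly.irreducible hint)
  refine ⟨g, hg.symm, fun l j => ?_⟩
  rw [Fintype.linearIndependent_iff] at hc
  have h1 := hc (fun j => A l j - if l = j then g else 0) (by
    have h2 := h l
    rw [← hg] at h2
    simp only [Algebra.smul_def, map_sub, sub_mul, Finset.sum_sub_distrib]
    rw [h2, sub_eq_zero]
    rw [Finset.sum_eq_single l]
    · rw [if_pos rfl]
    · intro b _ hb
      rw [if_neg (Ne.symm hb), map_zero, zero_mul]
    · intro h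
      exact absurd (Finset.mem_univ l) h) j
  exact sub_eq_zero.1 h1

end eig

variable {k K D V : Type*} [Field k] [IsAlgClosed k] [CharZero k] [Field K] [CharZero K]
  [Algebra k K] [DivisionRing D] [CharZero D] [AddCommGroup V] [Module D V] [Module ℚ V]
  {n : ℕ}

/-- `μ` is a common eigenvector with the eigenvalues `σ`. -/
def Ev (M : D →+* Matrix (Fin n) (Fin n) ℚ) (μ : Fin n → k) (σ : D → k) : Prop :=
  μ ≠ 0 ∧ ∀ x : D, μ ᵥ* ovf k (M x) = σ x • μ

theorem span_ev (hn : 0 < n) (M : D →+* Matrix (Fin n) (Fin n) ℚ)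
    (hcomm : ∀ x y : D, x * y = y * x) :
    Submodule.span k {μ : Fin n → k | ∃ σ : D → k, Ev M μ σ} = ⊤ := by
  have h := span_eigen (k := k) hn M ⊤ (fun x _ y _ => hcomm x y)
  rw [eq_top_iff, ← h, Submodule.span_le]
  rintro μ ⟨σ, hσ⟩
  by_cases h0 : μ = 0
  · rw [h0]
    exact Submodule.zero_mem _
  · exact Submodule.subset_span ⟨fun x => σ ⟨x, trivial⟩, h0, fun x => hσ ⟨x, trivial⟩⟩

namespace Ev

variable {M : D →+* Matrix (Fin n) (Fin n) ℚ} {μ : Fin n → k} {σ : D → k}

omit [IsAlgClosed k] [CharZero D] in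
theorem mul (h : Ev M μ σ) (x y : D) : σ (x * y) = σ x * σ y := by
  have h1 := h.2 (x * y)
  rw [map_mul, ovf_mul, ← Matrix.vecMul_vecMul, h.2 x, Matrix.smul_vecMul, h.2 y, smul_smul] at h1
  exact (smul_left_injective k h.1 h1).symm

omit [IsAlgClosed k] [CharZero D] in
theorem add (h : Ev M μ σ) (x y : D) : σ (x + y) = σ x + σ y := by
  have h1 := h.2 (x + y)
  rw [map_add, ovf_add, Matrix.vecMul_add, h.2 x, h.2 y, ← add_smul] at h1
  exact (smul_left_injective k h.1 h1).symm

omit [IsAlgClosed k] [CharZero D] in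
theorem zero (h : Ev M μ σ) : σ 0 = 0 := by
  have h1 := h.add 0 0
  rw [add_zero] at h1
  simpa using h1

omit [IsAlgClosed k] in
theorem rat (h : Ev M μ σ) (q : ℚ) (x : D) : σ (q • x) = (q : k) * σ x := by
  have h1 := h.2 (q • x)
  have h2 : M (q • x) = q • M x := map_rat_smul M q x
  have h3 : ovf k (q • M x) = (q : k) • ovf k (M x) := by
    ext i j
    simp [ovf]
  rw [h2, h3, Matrix.vecMul_smul, h.2 x, smul_smul] at h1
  exact (smul_left_injective k h.1 h1).symm

end Ev

/-- the pairing -/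
def pair (μ : Fin n → k) (w : Fin n → K) : K := ∑ b, algebraMap k K (μ b) * w b

omit [IsAlgClosed k] [CharZero D] in
theorem pair_smul {M : D →+* Matrix (Fin n) (Fin n) ℚ} {μ : Fin n → k} {σ : D → k} (h : Ev M μ σ)
    (x : D) (w : Fin n → K) :
    pair μ (ovf K (M x) *ᵥ w) = algebraMap k K (σ x) * pair μ w := by
  have h1 := dot_ovf (M x) μ w
  rw [h.2 x] at h1
  have h2 : pair μ (ovf K (M x) *ᵥ w) =
      (fun b => algebraMap k K (μ b)) ⬝ᵥ (ovf K (M x) *ᵥ w) := rfl
  rw [h2, h1]
  simp only [dotProduct, Pi.smul_apply, smul_eq_mul, map_mul, pair, Finset.mul_sum]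
  exact Finset.sum_congr rfl fun b _ => by ring

omit [IsAlgClosed k] [CharZero k] [CharZero K] in
theorem pair_sum {ι : Type*} (s : Finset ι) (μ : Fin n → k) (w : ι → Fin n → K) :
    pair μ (∑ i ∈ s, w i) = ∑ i ∈ s, pair μ (w i) := by
  unfold pair
  rw [Finset.sum_comm]
  refine Finset.sum_congr rfl fun b _ => ?_
  rw [Finset.sum_apply, Finset.mul_sum]

omit [IsAlgClosed k] [CharZero k] [CharZero K] in
theorem pair_scalar (μ : Fin n → k) (a : K) (w : Fin n → K) : pair μ (a • w) = a * pair μ w := by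
  unfold pair
  rw [Finset.mul_sum]
  refine Finset.sum_congr rfl fun b _ => ?_
  rw [Pi.smul_apply, smul_eq_mul]
  ring

/-- if all eigenvalues of a combination vanish it is trivial -/
theorem comb_zero (hn : 0 < n) (M : D →+* Matrix (Fin n) (Fin n) ℚ)
    (hcomm : ∀ x y : D, x * y = y * x) {ι κ : Type*} [Fintype ι] [Fintype κ] (x : ι → κ → D)
    (hx : LinearIndependent ℚ x) (z : ι → k)
    (h : ∀ (μ : Fin n → k) (σ : D → k), Ev M μ σ → ∀ j, ∑ i, z i * σ (x i j) = 0) : z = 0 := by
  classical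
  have h1 : ∀ j, ∑ i, z i • ovf k (M (x i j)) = 0 := by
    intro j
    have h2 : ∀ μ : Fin n → k, μ ᵥ* (∑ i, z i • ovf k (M (x i j))) = 0 := by
      intro μ
      have h3 : μ ∈ Submodule.span k {μ : Fin n → k | ∃ σ : D → k, Ev M μ σ} := by
        rw [span_ev hn M hcomm]
        trivial
      refine Submodule.span_induction ?_ ?_ ?_ ?_ h3
      · rintro μ ⟨σ, hσ⟩
        rw [Matrix.vecMul_sum]
        have h4 : ∀ i, μ ᵥ* (z i • ovf k (M (x i j))) = (z i * σ (x i j)) • μ := fun i => by
          rw [Matrix.vecMul_smul, hσ.2, smul_smul]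
        rw [Finset.sum_congr rfl fun i _ => h4 i, ← Finset.sum_smul, h μ σ hσ j, zero_smul]
      · exact Matrix.zero_vecMul _
      · intro a b _ _ ha hb
        rw [Matrix.add_vecMul, ha, hb, add_zero]
      · intro a b _ hb
        rw [Matrix.smul_vecMul, hb, smul_zero]
    ext a b
    have h3 := congrFun (h2 (Pi.single a 1)) b
    rw [Matrix.single_one_vecMul] at h3
    exact h3
  refine eq_zero_of_combination (κ := κ × Fin n × Fin n)
    (fun i q => M (x i q.1) q.2.1 q.2.2) ?_ z ?_
  · rw [Fintype.linearIndependent_iff] at hx ⊢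
    intro q hq
    refine hx q ?_
    funext j
    rw [Finset.sum_apply, Pi.zero_apply]
    have : Nonempty (Fin n) := ⟨⟨0, hn⟩⟩
    apply M.injective
    rw [map_zero, map_sum]
    ext a b
    have h4 := congrFun hq (j, a, b)
    rw [Finset.sum_apply] at h4
    rw [Matrix.sum_apply]
    rw [Pi.zero_apply] at h4
    rw [Matrix.zero_apply, ← h4]
    refine Finset.sum_congr rfl fun i _ => ?_
    rw [Pi.smul_apply, map_rat_smul, Matrix.smul_apply, Pi.smul_apply]
  · rintro ⟨j, a, b⟩
    have h4 := congrFun (congrFun (h1 j) a) b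
    rw [Matrix.sum_apply] at h4
    exact h4

end Pool.Agent.U979.AV
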